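import Pool.Agent.H586.AF.C

/-!
# Project AF: the assembly of the determinants (helper252, for helper586)
-/

set_option autoImplicit false
set_option linter.unusedVariables false

open MeasureTheory Matrix Finset Filter Topology
open Pool.Agent.H586.AF

namespace Pool.Agent.H252.AF

noncomputable section

/-- the product over the four directions as Kronecker products -/
theorem k4_kron {a b c d a' b' c' d' : Type} (A : Matrix a a' ℂ) (B : Matrix b b' ℂ)
    (C : Matrix c c' ℂ) (D : Matrix d d' ℂ) :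
    k4 A B C D = kroneckerMap (· * ·) A (kroneckerMap (· * ·) B (kroneckerMap (· * ·) C D)) := by
  ext x y
  simp only [k4, kroneckerMap_apply, mul_assoc]

theorem det_g4 (L : ℕ) (h : (dm L L).det = 1) : (g4 L).det = 1 := by
  have h1 : (cx (dm L L)).det = 1 := by
    have := RingHom.map_det Complex.ofRealHom (dm L L)
    rw [h, map_one] at this
    exact this.symm
  unfold g4
  rw [k4_kron, det_kronecker, det_kronecker, det_kronecker, h1]
  simp

theorem inter (hG1 : S_G1) (hG2 : S_G2) (L : ℕ) (hL : 2 ≤ L) (θ : ℝ) :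
    mF L θ * Matrix.fromRows (gV L θ) (g4 L) = Matrix.fromRows (gV L θ) (g4 L) * lap L θ := by
  obtain ⟨-, h2, h3, h4, -⟩ := hG1 L hL θ
  have h5 := hG2 L hL θ
  have h6 : mH L θ * gV L θ = gV L θ * lap L θ := by
    unfold mH gV
    rw [fromBlocks_mul_fromRows, fromCols_mul_fromRows, fromRows_mul, fromBlocks_mul_fromRows,
      fromRows_mul, fromRows_mul, Matrix.zero_mul, Matrix.zero_mul, Matrix.zero_mul,
      Matrix.zero_mul, add_zero, add_zero, zero_add, h2, h3, ← h5]
    congr 1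
    ext i j
    rcases i with i | i
    · simp only [Matrix.add_apply, fromRows_apply_inl]
    · simp only [Matrix.add_apply, fromRows_apply_inr, Matrix.zero_apply, zero_add]
  unfold mF
  rw [fromBlocks_mul_fromRows, fromRows_mul, h6, h4]
  simp

theorem tl1 (hLA : S_LA) (hLD : S_LD) (hG1 : S_G1) (hG2 : S_G2) (hLM : S_LM) (hLC : S_LC)
    (hT : S_T) (hPD : S_PD) : S_L1 := by
  intro L hL
  obtain ⟨pDD, pNN, pDN, pND, hdet, fDD, fNN, -⟩ := hPD L hL
  obtain ⟨hlm, cF, cl, cC, hF0⟩ := hLM L hL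
  have hg : (g4 L).det = 1 := det_g4 L hdet
  -- the identity of the determinants
  have hid : ∀ θ : ℝ, (mF L θ).det * ((g4 L).det * star (g4 L).det) =
      (lap L θ).det ^ 2 * (hC L θ).det := by
    intro θ
    obtain ⟨h1, -, -, -, h5⟩ := hG1 L hL θ
    have h6 := hLA (mF L θ) (gV L θ) (g4 L) h5 (by rw [hg]; exact one_ne_zero)
      (by rw [h1]; exact inter hG1 hG2 L hL θ)
    rw [h1] at h6
    rw [h6]
    congr 2
  have hc : (g4 L).det * star (g4 L).det ≠ 0 := by
    rw [hg]
    simp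
  have hld := hLD (mF L) (lap L) (hC L) _ cF cl cC hc hF0 hid
  have h0 : (hC L 0).det ≠ 0 := by
    intro h
    have h7 := hid 0
    rw [h, mul_zero] at h7
    exact (mul_ne_zero hF0 hc) h7
  refine ⟨?_, h0⟩
  -- the magnetic parts
  have e1 := hLC (lNN L) (lDD L) (lDD L) (lDN L) pNN pDD pDD pDN fDD (1 / 2)
  have e2 := hLC (lDD L) (lNN L) (lDD L) (lDN L) pDD pNN pDD pDN fNN 1
  have e3 : ld (m33 L) = _ := hLC (lDD L) (lDD L) (lNN L) (lDN L) pDD pDD pNN pDN fDD 1
  have e4 : ld (m44 L) = _ := hLC (lDD L) (lDD L) (lDD L) (lND L) pDD pDD pDD pND fDD 1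
  have e5 : ld (lap L) = _ := hLC (lDD L) (lDD L) (lDD L) (lDN L) pDD pDD pDD pDN fDD 1
  -- the traces
  have t1 := (hT (lNN L) (lDD L) (lDD L) (lDN L) pNN pDD pDD pDN).1
  have t2 := (hT (lDD L) (lNN L) (lDD L) (lDN L) pDD pNN pDD pDN).1
  have t3 : ((ks (lNN L) (lDD L) (lDD L) (lDN L))⁻¹ * kN L *
      (ks (lDD L) (lNN L) (lDD L) (lDN L))⁻¹ * (kN L)ᵀ).trace = BU L := by
    have h8 := (hT (lNN L) (lDD L) (lDD L) (lDN L) pNN pDD pDD pDN).2.2 (lDD L) (lNN L)
      (nm L (L - 1)) (nm L (L - 1))ᵀ pDD pNN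
    unfold kN
    rw [h8]
    unfold BU
    refine setIntegral_congr_fun measurableSet_Ioi fun t _ => ?_
    refine setIntegral_congr_fun measurableSet_Ioi fun s _ => ?_
    have h9 : (hk (lDD L) t * (nm L (L - 1))ᵀ * hk (lNN L) s * ((nm L (L - 1))ᵀ)ᵀ).trace =
        nn L s t := by
      unfold nn
      rw [transpose_transpose, Matrix.mul_assoc, Matrix.trace_mul_comm, ← Matrix.mul_assoc]
    rw [h9]
    rfl
  rw [hlm, e1, e2, e3, e4, t1, t2, t3, e5] at hld
  have h10 : ld (hC L) = _ - _ := eq_sub_of_add_eq' hld.symm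
  rw [h10]
  unfold LL
  push_cast
  ring

end

end Pool.Agent.H252.AF
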